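import Pool.Agent.H.MP_e22fa6_co.Main

namespace Pool.Agent.Results.MP_e22fa6_co.SortedOptimum
open Pool.Agent.H.MP_e22fa6_co

theorem result (his : Bool) (n : ℕ) (hn : 2 ≤ n) (v : Fin n → ℝ) (hv : Monotone v) :
    ∃ P : Finpartition (Finset.univ : Finset (Fin n)), P.parts.card ≤ 2 ∧ IsSorted v P ∧
      ∀ Q : Finpartition (Finset.univ : Finset (Fin n)), Q.parts.card ≤ 2 →
        SC his v P ≤ SC his v Q :=
  main his n hn v hv

end Pool.Agent.Results.MP_e22fa6_co.SortedOptimum
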